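import Pool.Agent.KDD.Stmts

set_option autoImplicit false

/-!
# KDD, row TCH: the chart of the annulus at a twin (copy of SZT row CHT)
-/

noncomputable section

open Polynomial H58Q
open Pool.Agent.SZT Pool.Agent.SZT.B Pool.Agent.KDT Pool.Agent.KDS Pool.Agent.KDD

namespace Pool.Agent.KDD.H11

theorem tch (nod : TndStatement) : TchStatement := by
  intro L _ _ _ f θ s hN hs
  obtain ⟨⟨hη0, hη1, hctr⟩, ⟨-, -, hh1⟩, hfe, -⟩ := nod L f θ hN
  have h2 : ‖(2 : L)‖ = 1 := hN.two
  have h20 : (2 : L) ≠ 0 := by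
    intro h
    rw [h, norm_zero] at h2
    exact zero_ne_one h2
  set η := eta θ with hηdef
  have hηpos : 0 < ‖η‖ := norm_pos_iff.2 hη0
  have hlogη : Real.log ‖η‖ < 0 := Real.log_neg hηpos hη1
  have hsq : ∀ z : L, ‖z‖ < 1 → ‖pval s z‖ = 1 ∧ pval s z ≠ 0 := by
    intro z hz
    have h1 : ‖pval s z‖ ^ 2 = 1 := by
      rw [← norm_pow, hs.2 z hz, hh1 z hz]
    have h3 : ‖pval s z‖ = 1 := by
      have h4 : 0 ≤ ‖pval s z‖ := norm_nonneg _
      nlinarith
    refine ⟨h3, ?_⟩
    intro h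
    rw [h, norm_zero] at h3
    exact zero_ne_one h3
  have hadd : ∀ a b : L, ‖a‖ < 1 → ‖b‖ < 1 → ‖a + b‖ < 1 := fun a b ha hb =>
    lt_of_le_of_lt (IsUltrametricDist.norm_add_le_max a b) (max_lt ha hb)
  have hsub : ∀ a b : L, ‖a‖ < 1 → ‖b‖ < 1 → ‖a - b‖ < 1 := fun a b ha hb => by
    rw [sub_eq_add_neg]
    exact hadd a (-b) ha (by rwa [norm_neg])
  refine ⟨?_, ?_, ?_⟩
  · intro X hX
    obtain ⟨hX1, hX2⟩ := hX
    have hXpos : 0 < ‖X‖ := hηpos.trans hX1
    have hX0 : X ≠ 0 := norm_pos_iff.1 hXpos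
    have hηX : ‖η / X‖ < 1 := by
      rw [norm_div, div_lt_one hXpos]
      exact hX1
    have hηX' : ‖η‖ < ‖η / X‖ := by
      rw [norm_div, lt_div_iff₀ hXpos]
      nlinarith
    have hηX0 : η / X ≠ 0 := div_ne_zero hη0 hX0
    have hz : ‖(X + η / X) / 2‖ < 1 := by
      rw [norm_div, h2, div_one]
      exact hadd _ _ hX2 hηX
    obtain ⟨hp1, hp0⟩ := hsq _ hz
    have hzz : ((X + η / X) / 2) ^ 2 - η = ((X - η / X) / 2) ^ 2 := by
      field_simp
      ring
    have hxx : xx θ X - ctr θ = (X + η / X) / 2 := by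
      unfold xx
      rw [← hηdef]
      ring
    have hyy : yy θ s X = (X - η / X) / 2 * pval s ((X + η / X) / 2) := by
      unfold yy
      rw [← hηdef]
    have hηηX : η / (η / X) = X := by
      field_simp
    refine ⟨hz, ?_, ?_, ?_, ⟨hηX', hηX⟩, ?_, ?_, ?_, ?_, ?_⟩
    · have h3 : xx θ X = ctr θ + (X + η / X) / 2 := by
        rw [← hxx]
        ring
      rw [h3, hfe, hzz, hyy, mul_pow, hs.2 _ hz]
    · rw [hyy, norm_mul, hp1, mul_one, norm_div, h2, div_one]
    · unfold crd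
      rw [hxx, hyy, mul_div_assoc, div_self hp0, mul_one]
      have h3 : (2 : L)⁻¹ * 2 = 1 := inv_mul_cancel₀ h20
      linear_combination X * h3
    · unfold xx
      rw [← hηdef, hηηX, add_comm (η / X) X]
    · unfold yy
      rw [← hηdef, hηηX, add_comm (η / X) X]
      ring
    · unfold pos
      rw [norm_div, Real.log_div hηpos.ne' hXpos.ne', sub_div, div_self hlogη.ne]
    · have h3 : xx θ X = ctr θ + (X + η / X) / 2 := by
        rw [← hxx]
        ring
      rw [h3]
      exact (IsUltrametricDist.norm_add_le_max _ _).trans (max_le hctr hz.le)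
    · rw [hxx]
      exact hz
  · intro a y hy ha
    obtain ⟨hp1, hp0⟩ := hsq _ ha
    have hfa : f.eval a = ((a - ctr θ) ^ 2 - η) * (hh θ).eval (a - ctr θ) := by
      have h3 := hfe (a - ctr θ)
      rwa [add_sub_cancel] at h3
    have hy2 : y ^ 2 = ((a - ctr θ) ^ 2 - η) * pval s (a - ctr θ) ^ 2 := by
      rw [hy, hfa, hs.2 _ ha]
    have hyn : ‖y‖ < 1 := by
      have h3 : ‖y‖ ^ 2 < 1 := by
        rw [← norm_pow, hy2, norm_mul, norm_pow, hp1, one_pow, mul_one]
        apply hsub _ _ _ hη1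
        rw [norm_pow]
        have h4 : 0 ≤ ‖a - ctr θ‖ := norm_nonneg _
        nlinarith
      have h4 : 0 ≤ ‖y‖ := norm_nonneg _
      nlinarith
    have hq : ‖y / pval s (a - ctr θ)‖ < 1 := by
      rw [norm_div, hp1, div_one]
      exact hyn
    have hprod : ((a - ctr θ) + y / pval s (a - ctr θ)) *
        ((a - ctr θ) - y / pval s (a - ctr θ)) = η := by
      have h3 : (y / pval s (a - ctr θ)) ^ 2 = (a - ctr θ) ^ 2 - η := by
        rw [div_pow, hy2]
        field_simp
      linear_combination -h3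
    have hX0 : (a - ctr θ) + y / pval s (a - ctr θ) ≠ 0 := by
      intro h
      rw [h, zero_mul] at hprod
      exact hη0 hprod.symm
    have hdiv : η / ((a - ctr θ) + y / pval s (a - ctr θ)) =
        (a - ctr θ) - y / pval s (a - ctr θ) := by
      rw [div_eq_iff hX0, mul_comm]
      exact hprod.symm
    have hc : crd θ s a y = (a - ctr θ) + y / pval s (a - ctr θ) := rfl
    have hmid : (crd θ s a y + η / crd θ s a y) / 2 = a - ctr θ := by
      rw [hc, hdiv]
      field_simp
      ring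
    refine ⟨⟨?_, ?_⟩, ?_, ?_, ?_⟩
    · have h3 : ‖η / crd θ s a y‖ < 1 := by
        rw [hc, hdiv]
        exact hsub _ _ ha hq
      have h4 : 0 < ‖crd θ s a y‖ := by
        rw [hc]
        exact norm_pos_iff.2 hX0
      rwa [norm_div, div_lt_one h4] at h3
    · rw [hc]
      exact hadd _ _ ha hq
    · unfold xx
      rw [← hηdef, hmid]
      ring
    · unfold yy
      rw [← hηdef, hmid, hc, hdiv]
      field_simp
      ring
    · rw [hc, hdiv]
      unfold crd
      rw [neg_div, sub_eq_add_neg (a - ctr θ) (y / pval s (a - ctr θ))]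
  · intro X X' hX hX'
    unfold xx
    rw [← hηdef]
    field_simp
    ring

end Pool.Agent.KDD.H11
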